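import Pool.Agent.Helper14.CPX.Defs

/-!
Simple facts on the kernel friendly definitions.
-/

set_option autoImplicit false

namespace Pool.Agent.Helper14.CPX

@[simp] theorem force_eq {α : Type} (n : ℕ) (f : ℕ → α) : force n f = f n := by
  cases n <;> rfl

theorem tri_eq (j : ℕ) : tri j = j * (j - 1) / 2 := by
  unfold tri
  show (j * (j - 1)) >>> 1 = _
  rw [Nat.shiftRight_eq_div_pow, pow_one]

theorem tri_succ (j : ℕ) : tri (j + 1) = tri j + j := by
  rw [tri_eq, tri_eq]
  have h1 : (j + 1) * (j + 1 - 1) = j * (j - 1) + j * 2 := by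
    cases j with
    | zero => rfl
    | succ n => simp only [Nat.add_sub_cancel]; ring
  rw [h1, Nat.add_mul_div_right _ _ (by norm_num)]

@[simp] theorem tri_zero : tri 0 = 0 := rfl

theorem tri_mono {i j : ℕ} (h : i ≤ j) : tri i ≤ tri j := by
  induction j, h using Nat.le_induction with
  | base => exact le_refl _
  | succ n _ ih => rw [tri_succ]; omega

theorem tri_lt {i j K : ℕ} (hi : i < j) (hj : j < K) : tri j + i < tri K := by
  have h := tri_mono (show j + 1 ≤ K from hj)
  rw [tri_succ] at h
  omega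

/-- the index determines the pair -/
theorem tri_inj {i j i' j' : ℕ} (hi : i < j) (hi' : i' < j')
    (h : tri j + i = tri j' + i') : i = i' ∧ j = j' := by
  have hj : j = j' := by
    rcases lt_trichotomy j j' with hlt | heq | hgt
    · have := tri_lt hi hlt
      omega
    · exact heq
    · have := tri_lt hi' hgt
      omega
  subst hj
  exact ⟨by omega, rfl⟩

theorem blt_iff {a b : ℕ} : Nat.blt a b = true ↔ a < b := by
  unfold Nat.blt
  rw [Nat.ble_eq]
  exact Iff.rfl

theorem blt_false_iff {a b : ℕ} : Nat.blt a b = false ↔ b ≤ a := by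
  rw [Bool.eq_false_iff, ne_eq, blt_iff, not_lt]

theorem ble_iff {a b : ℕ} : Nat.ble a b = true ↔ a ≤ b := by
  rw [Nat.ble_eq]

theorem ble_false_iff {a b : ℕ} : Nat.ble a b = false ↔ b < a := by
  rw [Bool.eq_false_iff, ne_eq, ble_iff, not_le]

theorem beq_iff {a b : ℕ} : Nat.beq a b = true ↔ a = b := by
  rw [Nat.beq_eq]

theorem beq_false_iff {a b : ℕ} : Nat.beq a b = false ↔ a ≠ b := by
  rw [Bool.eq_false_iff, ne_eq, beq_iff]

theorem px_of_lt {i j : ℕ} (h : i < j) : px i j = tri j + i := by
  unfold px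
  rw [blt_iff.2 h]
  rfl

theorem px_of_gt {i j : ℕ} (h : j < i) : px i j = tri i + j := by
  unfold px
  rw [blt_false_iff.2 (le_of_lt h)]
  rfl

theorem px_comm {i j : ℕ} (h : i ≠ j) : px i j = px j i := by
  rcases lt_or_gt_of_ne h with h | h
  · rw [px_of_lt h, px_of_gt h]
  · rw [px_of_gt h, px_of_lt h]

theorem bt_eq (m n : ℕ) : bt m n = (m >>> n) % 2 := rfl

theorem bt_le (m n : ℕ) : bt m n ≤ 1 := by
  have := Nat.mod_lt (m >>> n) (show 2 > 0 by norm_num)
  rw [bt_eq]
  omega

theorem bt_one_iff (m n : ℕ) : bt m n = 1 ↔ m.testBit n = true := by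
  rw [bt_eq, Nat.testBit_eq_decide_div_mod_eq, decide_eq_true_iff, Nat.shiftRight_eq_div_pow]

theorem bt_zero_iff (m n : ℕ) : bt m n = 0 ↔ m.testBit n = false := by
  have h := bt_le m n
  rw [← Bool.not_eq_true, ← bt_one_iff]
  omega

theorem dg_eq (x i : ℕ) : dg x i = x / 16 ^ i % 16 := by
  show (x >>> (4 * i)) % 16 = _
  rw [Nat.shiftRight_eq_div_pow, pow_mul]
  norm_num

theorem cls_eq (C e : ℕ) : cls C e = C / 8 ^ e % 8 := by
  show (C >>> (3 * e)) % 8 = _
  rw [Nat.shiftRight_eq_div_pow, pow_mul]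
  norm_num

theorem col_le (a b i j : ℕ) : col a b i j ≤ 2 := by
  unfold col
  cases Nat.beq (bt a (px i j)) 1 <;> cases Nat.beq (bt b (px i j)) 1 <;> simp

theorem col_comm {a b i j : ℕ} (h : i ≠ j) : col a b i j = col a b j i := by
  unfold col
  rw [px_comm h]

theorem col_eq (a b i j : ℕ) :
    col a b i j = if bt a (px i j) = 1 then 1 else if bt b (px i j) = 1 then 2 else 0 := by
  unfold col
  split_ifs with h1 h2
  · rw [beq_iff.2 h1]; rfl
  · rw [beq_false_iff.2 h1, beq_iff.2 h2]; rfl
  · rw [beq_false_iff.2 h1, beq_false_iff.2 h2]; rfl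

@[simp] theorem T.get_leaf {α : Type} (n : α) (i : ℕ) : (T.leaf n).get i = n := rfl

theorem T.get_node {α : Type} (l r : T α) (i : ℕ) :
    (T.node l r).get i = if i % 2 = 0 then l.get (i / 2) else r.get (i / 2) := by
  show cond (Nat.beq (Nat.mod i 2) 0) (l.get (Nat.shiftRight i 1)) (r.get (Nat.shiftRight i 1)) = _
  have h1 : Nat.shiftRight i 1 = i / 2 := by
    show i >>> 1 = _
    rw [Nat.shiftRight_eq_div_pow, pow_one]
  rw [h1]
  split_ifs with h
  · rw [beq_iff.2 (show Nat.mod i 2 = 0 from h)]; rfl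
  · rw [beq_false_iff.2 (show Nat.mod i 2 ≠ 0 from h)]; rfl

theorem T.All.get {α : Type} {P : α → Prop} {t : T α} (h : T.All P t) (i : ℕ) : P (t.get i) := by
  induction t generalizing i with
  | leaf n => exact h
  | node l r ihl ihr =>
    rw [T.get_node]
    split_ifs
    · exact ihl h.1 _
    · exact ihr h.2 _

theorem T.All.mono {α : Type} {P Q : α → Prop} (hPQ : ∀ a, P a → Q a) {t : T α}
    (h : T.All P t) : T.All Q t := by
  induction t with
  | leaf n => exact hPQ _ h
  | node l r ihl ihr => exact ⟨ihl h.1, ihr h.2⟩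

theorem T.all_iff {α : Type} {f : α → Bool} {t : T α} :
    t.all f = true ↔ T.All (fun a => f a = true) t := by
  induction t with
  | leaf n => exact Iff.rfl
  | node l r ihl ihr =>
    show and (l.all f) (r.all f) = true ↔ _
    rw [Bool.and_eq_true, ihl, ihr]
    exact Iff.rfl

/-- `all2` gives the test with some entry of the second trie for each entry of the first -/
theorem T.all2_all {α β : Type} {f : α → β → Bool} {t : T α} {s : T β}
    (h : T.all2 f t s = true) : T.All (fun a => ∃ b, f a b = true) t := by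
  induction t generalizing s with
  | leaf n =>
    cases s with
    | leaf m => exact ⟨m, h⟩
    | node l r => exact absurd h (by exact Bool.false_ne_true)
  | node l r ihl ihr =>
    cases s with
    | leaf m => exact absurd h (by exact Bool.false_ne_true)
    | node sl sr =>
      have h' : and (T.all2 f l sl) (T.all2 f r sr) = true := h
      rw [Bool.and_eq_true] at h'
      exact ⟨ihl h'.1, ihr h'.2⟩

end Pool.Agent.Helper14.CPX
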