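import Pool.Agent.Helper14.CPX.Basic

/-!
Adding at a digit without carry.
-/

set_option autoImplicit false

namespace Pool.Agent.Helper14.CPX

theorem dig_add {B : ℕ} (hB : 2 ≤ B) (C e c : ℕ) (h : C / B ^ e % B + c < B) :
    (C + c * B ^ e) / B ^ e % B = C / B ^ e % B + c ∧
    ∀ e', e' ≠ e → (C + c * B ^ e) / B ^ e' % B = C / B ^ e' % B := by
  have hBpos : 0 < B := by omega
  have hpe : 0 < B ^ e := pow_pos hBpos e
  refine ⟨?_, ?_⟩
  · rw [Nat.add_mul_div_right _ _ hpe]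
    conv_lhs => rw [← Nat.div_add_mod (C / B ^ e) B]
    rw [Nat.add_assoc, Nat.mul_add_mod]
    exact Nat.mod_eq_of_lt h
  · intro e' he
    rcases lt_or_gt_of_ne he with hlt | hgt
    · obtain ⟨k, rfl⟩ : ∃ k, e = e' + (k + 1) := ⟨e - e' - 1, by omega⟩
      have h1 : c * B ^ (e' + (k + 1)) = (c * B ^ k * B) * B ^ e' := by ring
      rw [h1, Nat.add_mul_div_right _ _ (pow_pos hBpos e'), Nat.add_mul_mod_self_right]
    · obtain ⟨k, rfl⟩ : ∃ k, e' = (e + 1) + k := ⟨e' - e - 1, by omega⟩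
      have key : (C + c * B ^ e) / B ^ (e + 1) = C / B ^ (e + 1) := by
        rw [pow_succ, ← Nat.div_div_eq_div_mul, ← Nat.div_div_eq_div_mul,
          Nat.add_mul_div_right _ _ hpe]
        conv_lhs => rw [← Nat.div_add_mod (C / B ^ e) B]
        rw [Nat.add_assoc, Nat.mul_add_div hBpos, Nat.div_eq_of_lt h, Nat.add_zero]
      rw [pow_add B (e + 1) k, ← Nat.div_div_eq_div_mul, ← Nat.div_div_eq_div_mul, key]

theorem shiftLeft_one_mul (m k : ℕ) : Nat.shiftLeft m k = m * 2 ^ k := by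
  show m <<< k = _
  rw [Nat.shiftLeft_eq]

/-- adding a bit which is not there -/
theorem bt_add {m v : ℕ} (h : bt m v = 0) :
    bt (Nat.add m (Nat.shiftLeft 1 v)) v = 1 ∧
    ∀ u, u ≠ v → bt (Nat.add m (Nat.shiftLeft 1 v)) u = bt m u := by
  have e1 : ∀ x u : ℕ, bt x u = x / 2 ^ u % 2 := fun x u => by
    rw [bt_eq, Nat.shiftRight_eq_div_pow]
  rw [e1] at h
  have h2 : Nat.add m (Nat.shiftLeft 1 v) = m + 1 * 2 ^ v := by
    rw [shiftLeft_one_mul]; rfl
  have h3 := dig_add (B := 2) (le_refl 2) m v 1 (by rw [h]; norm_num)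
  rw [h2]
  refine ⟨?_, fun u hu => ?_⟩
  · rw [e1, h3.1, h]
  · rw [e1, e1, h3.2 u hu]

/-- adding one to a digit in base 16 -/
theorem dg_add {m v : ℕ} (h : dg m v < 15) :
    dg (Nat.add m (Nat.shiftLeft 1 (Nat.mul 4 v))) v = dg m v + 1 ∧
    ∀ u, u ≠ v → dg (Nat.add m (Nat.shiftLeft 1 (Nat.mul 4 v))) u = dg m u := by
  rw [dg_eq] at h
  have h2 : Nat.add m (Nat.shiftLeft 1 (Nat.mul 4 v)) = m + 1 * 16 ^ v := by
    rw [shiftLeft_one_mul]
    show m + 1 * 2 ^ (4 * v) = _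
    rw [pow_mul]
    norm_num
  have h3 := dig_add (B := 16) (by norm_num) m v 1 (by omega)
  rw [h2]
  refine ⟨?_, fun u hu => ?_⟩
  · rw [dg_eq, dg_eq, h3.1]
  · rw [dg_eq, dg_eq, h3.2 u hu]

/-- digits of a sum -/
theorem dig_sum {B : ℕ} (n : ℕ) (f : ℕ → ℕ) (hf : ∀ v < n, f v < B) :
    ∑ v ∈ Finset.range n, f v * B ^ v < B ^ n ∧
    ∀ v < n, (∑ v ∈ Finset.range n, f v * B ^ v) / B ^ v % B = f v := by
  induction n with
  | zero => simp
  | succ n ih =>
    obtain ⟨h1, h2⟩ := ih (fun v hv => hf v (by omega))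
    have hfn := hf n (by omega)
    have hB : 0 < B := by omega
    rw [Finset.sum_range_succ]
    refine ⟨?_, ?_⟩
    · have : f n * B ^ n + B ^ n ≤ B * B ^ n := by
        have : (f n + 1) * B ^ n ≤ B * B ^ n := Nat.mul_le_mul_right _ (by omega)
        calc f n * B ^ n + B ^ n = (f n + 1) * B ^ n := by ring
          _ ≤ _ := this
      rw [pow_succ']
      omega
    · intro v hv
      rcases Nat.lt_succ_iff_lt_or_eq.1 hv with hlt | rfl
      · obtain ⟨k, rfl⟩ : ∃ k, n = v + (k + 1) := ⟨n - v - 1, by omega⟩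
        have e1 : f (v + (k + 1)) * B ^ (v + (k + 1)) = (f (v + (k + 1)) * B ^ k * B) * B ^ v := by
          ring
        rw [e1, Nat.add_mul_div_right _ _ (pow_pos hB v), Nat.add_mul_mod_self_right, h2 v hlt]
      · rw [Nat.add_mul_div_right _ _ (pow_pos hB v), Nat.div_eq_of_lt h1, Nat.zero_add]
        exact Nat.mod_eq_of_lt hfn

end Pool.Agent.Helper14.CPX
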