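import Pool.Agent.Helper14.CPX.Stmts
import Pool.Agent.Helper14.CPX.Dig

/-!
Rows DIG and DIGADD.
-/

set_option autoImplicit false

namespace Pool.Agent.Helper14.CPX

theorem st_DIG : ST_DIG := by
  intro B n f g hf hg h v hv
  rw [← (dig_sum n f hf).2 v hv, h, (dig_sum n g hg).2 v hv]

theorem st_DIGADD : ST_DIGADD := by
  intro C e c hc h
  rw [cls_eq] at h
  have h2 : C + Nat.shiftLeft c (3 * e) = C + c * 8 ^ e := by
    rw [shiftLeft_one_mul, pow_mul]
    norm_num
  have h3 := dig_add (B := 8) (by norm_num) C e c (by omega)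
  rw [h2]
  refine ⟨?_, fun e' he => ?_⟩
  · rw [cls_eq, h3.1, h, Nat.zero_add]
  · rw [cls_eq, cls_eq, h3.2 e' he]

end Pool.Agent.Helper14.CPX
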