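import Mathlib

/-!
Two distances in a convex polygon: definitions for the verified search.
-/

set_option autoImplicit false

namespace Pool.Agent.Helper14.CPX

/-! ### geometry -/

/-- twice the signed area of the triangle `p q r` -/
noncomputable def crs (p q r : ℂ) : ℝ :=
  (q.re - p.re) * (r.im - p.im) - (q.im - p.im) * (r.re - p.re)

/-- the first `K` points of the sequence are the vertices of a strictly convex polygon in
counterclockwise order -/
def CCW (K : ℕ) (P : ℕ → ℂ) : Prop :=
  ∀ i j l, i < j → j < l → l < K → 0 < crs (P i) (P j) (P l)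

/-- the (partial) colouring `c` of the pairs of the first `K` naturals is realised by two distances
`α < β` of a convex polygon -/
def Fits (K : ℕ) (c : ℕ → ℕ → ℕ) : Prop :=
  ∃ (P : ℕ → ℂ) (α β : ℝ), CCW K P ∧ 0 < α ∧ α < β ∧
    ∀ i j, i < K → j < K → i ≠ j →
      (c i j = 1 → dist (P i) (P j) = α) ∧ (c i j = 2 → dist (P i) (P j) = β)

/-! ### pairs and masks -/

/-- index of the first pair with larger element `j` -/
def tri (j : ℕ) : ℕ := Nat.shiftRight (Nat.mul j (Nat.sub j 1)) 1

/-- index of the pair `{i, j}` -/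
def px (i j : ℕ) : ℕ := cond (Nat.blt i j) (Nat.add (tri j) i) (Nat.add (tri i) j)

/-- the bit number `n` of `m` -/
def bt (m n : ℕ) : ℕ := Nat.mod (Nat.shiftRight m n) 2

/-- colour of the pair `{i, j}` in the two masks `a`, `b` -/
def col (a b i j : ℕ) : ℕ := cond (Nat.beq (bt a (px i j)) 1) 1 (cond (Nat.beq (bt b (px i j)) 1) 2 0)

/-- digit number `i` in base 16 -/
def dg (x i : ℕ) : ℕ := Nat.mod (Nat.shiftRight x (Nat.mul 4 i)) 16

/-- evaluate the argument first -/
noncomputable def force {α : Type} (n : ℕ) (f : ℕ → α) : α :=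
  Nat.rec (f 0) (fun m _ => f (Nat.succ m)) n

/-! ### tries -/

/-- binary tries -/
inductive T (α : Type) where
  | leaf : α → T α
  | node : T α → T α → T α

/-- entry number `i` (lowest bit of the index first) -/
noncomputable def T.get {α : Type} (t : T α) : ℕ → α :=
  T.rec (motive := fun _ => ℕ → α) (fun n _ => n)
    (fun _ _ ihl ihr i =>
      cond (Nat.beq (Nat.mod i 2) 0) (ihl (Nat.shiftRight i 1)) (ihr (Nat.shiftRight i 1))) t

/-- all entries have the property -/
def T.All {α : Type} (P : α → Prop) : T α → Prop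
  | .leaf n => P n
  | .node l r => T.All P l ∧ T.All P r

/-- all entries pass the test -/
noncomputable def T.all {α : Type} (f : α → Bool) (t : T α) : Bool :=
  T.rec (motive := fun _ => Bool) f (fun _ _ a b => and a b) t

/-- all entries pass the test together with the entries of the second trie (same shape) -/
noncomputable def T.all2 {α β : Type} (f : α → β → Bool) (t : T α) : T β → Bool :=
  T.rec (motive := fun _ => T β → Bool)
    (fun n s => T.rec (motive := fun _ => Bool) (fun m => f n m) (fun _ _ _ _ => false) s)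
    (fun _ _ ihl ihr s =>
      T.rec (motive := fun _ => Bool) (fun _ => false) (fun sl sr _ _ => and (ihl sl) (ihr sr)) s) t

/-! ### cores and their certificates

A core is a number `k` of points and a list of coloured pairs `i + 16 j + 256 t`, `i < j`,
`t = 1, 2`. -/

/-- a core -/
abbrev Core : Type := ℕ × List ℕ

/-- the core is well formed and not realisable -/
def Refuted (c : Core) : Prop :=
  (∀ p ∈ c.2, p % 16 < p / 16 % 16 ∧ p / 16 % 16 < c.1) ∧
  ∀ f : ℕ → ℕ → ℕ, (∀ p ∈ c.2, f (p % 16) (p / 16 % 16) = p / 256) → ¬ Fits c.1 f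

/-- Direction angles `th` and lengths `len` of the chords of a convex polygon with `K` vertices:
the chord from `i` to `j`, `i < j`, has the index `tri j + i`. In the triangle `i < j < l` the
angle at `i` is `th (tri l + i) - th (tri j + i)`, the one at `l` is
`th (tri l + j) - th (tri l + i)` and the one at `j` is `π - (th (tri l + j) - th (tri j + i))`. -/
structure Model (K : ℕ) (th len : ℕ → ℝ) : Prop where
  pos : ∀ i j, i < j → j < K → 0 < len (tri j + i)
  a0 : ∀ i j l, i < j → j < l → l < K → th (tri j + i) < th (tri l + i)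
  a2 : ∀ i j l, i < j → j < l → l < K → th (tri l + i) < th (tri l + j)
  a1 : ∀ i j l, i < j → j < l → l < K → th (tri l + j) - th (tri j + i) < Real.pi
  c0 : ∀ i j l, i < j → j < l → l < K →
    len (tri l + j) ^ 2 = len (tri j + i) ^ 2 + len (tri l + i) ^ 2 -
      2 * len (tri j + i) * len (tri l + i) * Real.cos (th (tri l + i) - th (tri j + i))
  c1 : ∀ i j l, i < j → j < l → l < K →
    len (tri l + i) ^ 2 = len (tri j + i) ^ 2 + len (tri l + j) ^ 2 +
      2 * len (tri j + i) * len (tri l + j) * Real.cos (th (tri l + j) - th (tri j + i))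
  c2 : ∀ i j l, i < j → j < l → l < K →
    len (tri j + i) ^ 2 = len (tri l + i) ^ 2 + len (tri l + j) ^ 2 -
      2 * len (tri l + i) * len (tri l + j) * Real.cos (th (tri l + j) - th (tri l + i))

/-- class of the pair number `e`: 0 unknown, 1 shorter than `α`, 2 equal to `α`, 3 between, 4 equal
to `β`, 5 longer than `β` -/
def cls (C e : ℕ) : ℕ := Nat.mod (Nat.shiftRight C (Nat.mul 3 e)) 8

/-- the lengths of the pairs number `e`, `f` are equal according to the classes -/
def eqv (C e f : ℕ) : Bool :=
  or (Nat.beq e f) (cond (Nat.beq (cls C e) (cls C f))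
    (or (Nat.beq (cls C e) 2) (Nat.beq (cls C e) 4)) false)

/-- the length of the pair `e` is smaller than that of `f` according to the classes -/
def ltc (C e f : ℕ) : Bool := and (Nat.blt 0 (cls C e)) (Nat.blt (cls C e) (cls C f))

/-- selects by the corner number `x` -/
def sel (x u v w : ℕ) : ℕ := cond (Nat.beq x 0) u (cond (Nat.beq x 1) v w)

/-- the opposite side of the corner `x` of the triangle with pair indices `ij`, `il`, `jl` -/
def opp (x ij il jl : ℕ) : ℕ := sel x jl il ij
/-- first adjacent side -/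
def ad1 (x ij il _jl : ℕ) : ℕ := sel x ij ij il
/-- second adjacent side -/
def ad2 (x _ij il jl : ℕ) : ℕ := sel x il jl jl
/-- index of the direction counted positively in the angle -/
def pls (x ij il jl : ℕ) : ℕ := sel x il ij jl
/-- index of the direction counted negatively in the angle -/
def mns (x ij il jl : ℕ) : ℕ := sel x ij jl il

/-- the angle number `x` of the triangle with pair indices `ij`, `il`, `jl` -/
noncomputable def ang (th : ℕ → ℝ) (x ij il jl : ℕ) : ℝ :=
  th (pls x ij il jl) - th (mns x ij il jl) + (if x = 1 then Real.pi else 0)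

/-- meaning of the classes -/
def SemC (K C : ℕ) (len : ℕ → ℝ) (α β : ℝ) : Prop :=
  ∀ e, e < tri K → cls C e ≤ 5 ∧ (cls C e = 1 → len e < α) ∧ (cls C e = 2 → len e = α) ∧
    (cls C e = 3 → α < len e ∧ len e < β) ∧ (cls C e = 4 → len e = β) ∧
    (cls C e = 5 → β < len e)

/-- certificate trees -/
inductive Cert where
  | lf : List ℕ → Cert
  | br : ℕ → Cert → Cert → Cert → Cert → Cert → Cert

/-- decode a corner: `i + 16 j + 256 l + 4096 x`; calls the continuation with `x` and the pair
indices if the corner is valid -/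
noncomputable def corner {α : Type} (K n : ℕ) (bad : α) (f : ℕ → ℕ → ℕ → ℕ → α) : α :=
  force (Nat.mod n 16) fun i => force (Nat.mod (Nat.shiftRight n 4) 16) fun j =>
  force (Nat.mod (Nat.shiftRight n 8) 16) fun l =>
  cond (and (Nat.blt i j) (and (Nat.blt j l) (Nat.blt l K)))
    (force (Nat.add (tri j) i) fun ij => force (Nat.add (tri l) i) fun il =>
      force (Nat.add (tri l) j) fun jl => force (Nat.shiftRight n 12) fun x => f x ij il jl)
    bad

/-- the Farkas sum: entries `kind + 4 (m + 4096 (c1 + 16384 c2))`; kind 0: the angle `c1` is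
positive, kind 1: angle `c1` is larger than angle `c2`, kind 2: the angles are equal -/
noncomputable def farkas (K C : ℕ) (L : List ℕ) :
    ℕ → ℕ → ℕ → ℕ → ℕ → ℕ → Bool :=
  List.rec (motive := fun _ => ℕ → ℕ → ℕ → ℕ → ℕ → ℕ → Bool)
    (fun P N cp cn S Tt => and (Nat.beq P N) (and (Nat.blt Tt 65536)
      (and (Nat.ble cp cn) (or (Nat.blt 0 S) (Nat.blt cp cn)))))
    (fun e _ ih P N cp cn S Tt =>
      force (Nat.mod e 4) fun kind => force (Nat.mod (Nat.shiftRight e 2) 4096) fun m =>
      corner K (Nat.mod (Nat.shiftRight e 14) 16384) false fun x ij il jl =>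
      cond (Nat.beq kind 0)
        (ih (Nat.add P (Nat.shiftLeft m (Nat.mul 16 (pls x ij il jl))))
          (Nat.add N (Nat.shiftLeft m (Nat.mul 16 (mns x ij il jl))))
          (Nat.add cp (cond (Nat.beq x 1) m 0)) cn (Nat.add S m) (Nat.add Tt m))
        (corner K (Nat.shiftRight e 28) false fun x' ij' il' jl' =>
          cond (and
              (or (and (Nat.beq ij ij') (Nat.beq jl jl'))
                (or (and (eqv C (ad1 x ij il jl) (ad1 x' ij' il' jl'))
                    (eqv C (ad2 x ij il jl) (ad2 x' ij' il' jl')))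
                  (and (eqv C (ad1 x ij il jl) (ad2 x' ij' il' jl'))
                    (eqv C (ad2 x ij il jl) (ad1 x' ij' il' jl')))))
              (cond (Nat.beq kind 1) (ltc C (opp x' ij' il' jl') (opp x ij il jl))
                (eqv C (opp x' ij' il' jl') (opp x ij il jl))))
            (ih (Nat.add P (Nat.add (Nat.shiftLeft m (Nat.mul 16 (pls x ij il jl)))
                (Nat.shiftLeft m (Nat.mul 16 (mns x' ij' il' jl')))))
              (Nat.add N (Nat.add (Nat.shiftLeft m (Nat.mul 16 (mns x ij il jl)))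
                (Nat.shiftLeft m (Nat.mul 16 (pls x' ij' il' jl')))))
              (Nat.add cp (cond (Nat.beq x 1) m 0)) (Nat.add cn (cond (Nat.beq x' 1) m 0))
              (Nat.add S (cond (Nat.beq kind 1) m 0)) (Nat.add Tt (Nat.add m m)))
            false)) L

/-- check of a certificate tree: at a branching the pair `e` gets the classes 1, ..., 5 -/
noncomputable def certOK (K : ℕ) (t : Cert) : ℕ → Bool :=
  Cert.rec (motive := fun _ => ℕ → Bool)
    (fun L C => farkas K C L 0 0 0 0 0 0)
    (fun e _ _ _ _ _ i1 i2 i3 i4 i5 C =>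
      and (Nat.beq (cls C e) 0) (and (Nat.blt e (tri K))
        (and (i1 (Nat.add C (Nat.shiftLeft 1 (Nat.mul 3 e))))
        (and (i2 (Nat.add C (Nat.shiftLeft 2 (Nat.mul 3 e))))
        (and (i3 (Nat.add C (Nat.shiftLeft 3 (Nat.mul 3 e))))
        (and (i4 (Nat.add C (Nat.shiftLeft 4 (Nat.mul 3 e))))
        (i5 (Nat.add C (Nat.shiftLeft 5 (Nat.mul 3 e))))))))))
    t

/-- the classes of a core; calls the continuation with the class number -/
noncomputable def initC (K : ℕ) (L : List ℕ) : ℕ → (ℕ → Bool) → Bool :=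
  List.rec (motive := fun _ => ℕ → (ℕ → Bool) → Bool) (fun C f => force C f)
    (fun p _ ih C f =>
      force (Nat.mod p 16) fun i => force (Nat.mod (Nat.shiftRight p 4) 16) fun j =>
      force (Nat.shiftRight p 8) fun t =>
      force (Nat.add (tri j) i) fun e =>
      cond (and (and (Nat.blt i j) (Nat.blt j K))
          (and (or (Nat.beq t 1) (Nat.beq t 2)) (Nat.beq (cls C e) 0)))
        (ih (Nat.add C (Nat.shiftLeft (Nat.mul 2 t) (Nat.mul 3 e))) f) false) L

/-- check of a core -/
noncomputable def coreOK (c : Core) (t : Cert) : Bool :=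
  initC c.1 c.2 0 fun C => certOK c.1 t C

/-! ### images of cores

A polygon with `K + 1` vertices; the vertices carry the labels `0, ..., K`: the new vertex has
label `K` and sits at position `r`, the other ones keep their order. -/

/-- position of the label `l` -/
def posL (K r l : ℕ) : ℕ := cond (Nat.beq l K) r (cond (Nat.blt l r) l (Nat.succ l))

/-- label of the position `i` -/
def lam (K r i : ℕ) : ℕ := if i < r then i else if i = r then K else i - 1

/-- the masks `w = ib + 2^45 ia` cannot occur when the new vertex sits at position `r` -/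
def DeadImg (K r w : ℕ) : Prop :=
  ∀ c : ℕ → ℕ → ℕ, (∀ i j, c i j = c j i) →
    (∀ i j, i < j → j ≤ K → bt (Nat.shiftRight w 45) (px i j) = 1 → c i j = 1) →
    (∀ i j, i < j → j ≤ K → bt (Nat.mod w 35184372088832) (px i j) = 1 → c i j = 2) →
    ¬ Fits (K + 1) (fun i j => c (lam K r i) (lam K r j))

/-- position of the image of the vertex `i` of the core, seen in a mirror if `f = 1` -/
def posI (K r f ph i : ℕ) : ℕ :=
  cond (Nat.beq f 0) (posL K r (dg ph i)) (Nat.sub K (posL K r (dg ph i)))

/-- the positions of the images of the vertices `0, ..., n` are at most `K`, and increase with the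
exception of the step after `d` -/
noncomputable def cycGo (K r f d ph : ℕ) (n : ℕ) : Bool :=
  Nat.rec (Nat.ble (dg ph 0) K)
    (fun i ih => and (and (Nat.ble (dg ph (Nat.succ i)) K)
      (or (Nat.beq i d) (Nat.blt (posI K r f ph i) (posI K r f ph (Nat.succ i))))) ih) n

/-- all coloured pairs of the core have their colours in the masks -/
noncomputable def imgGo (ia ib ph : ℕ) (L : List ℕ) : Bool :=
  List.rec true (fun p _ ih =>
    and (force (px (dg ph (Nat.mod p 16)) (dg ph (Nat.mod (Nat.shiftRight p 4) 16))) fun e =>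
      cond (Nat.beq (Nat.shiftRight p 8) 1) (Nat.beq (bt ia e) 1)
        (and (Nat.beq (Nat.shiftRight p 8) 2) (Nat.beq (bt ib e) 1))) ih) L

/-- check of an image `w` with the certificate `s = core + 2^14 (f + 2 (d + 16 ph))` -/
noncomputable def imgOK (K r : ℕ) (CT : T Core) (w s : ℕ) : Bool :=
  force (Nat.mod (Nat.shiftRight s 14) 2) fun f =>
  force (Nat.mod (Nat.shiftRight s 15) 16) fun d => force (Nat.shiftRight s 19) fun ph =>
  Prod.rec (motive := fun _ => Bool) (fun k L =>
    and (Nat.blt 0 k)
    (and (cycGo K r f d ph (Nat.sub k 1))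
    (and (or (Nat.ble (Nat.sub k 1) d) (Nat.blt (posI K r f ph (Nat.sub k 1)) (posI K r f ph 0)))
      (force (Nat.shiftRight w 45) fun ia => force (Nat.mod w 35184372088832) fun ib =>
        imgGo ia ib ph L)))) (CT.get (Nat.mod s 16384))

/-! ### lists of patterns

An entry is `w = a + 2^45 (b + 2^45 (na + 16 (nb + 16 deg)))`. -/

/-- first mask -/
def wa (w : ℕ) : ℕ := Nat.mod w 35184372088832
/-- second mask -/
def wb (w : ℕ) : ℕ := Nat.mod (Nat.shiftRight w 45) 35184372088832
/-- number of pairs of the first colour -/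
def wna (w : ℕ) : ℕ := Nat.mod (Nat.shiftRight w 90) 16
/-- number of pairs of the second colour -/
def wnb (w : ℕ) : ℕ := Nat.mod (Nat.shiftRight w 94) 16
/-- degrees, in base 16 -/
def wdg (w : ℕ) : ℕ := Nat.shiftRight w 98

/-- symmetric colourings with the colours 0, 1, 2 -/
def Sym (c : ℕ → ℕ → ℕ) : Prop := (∀ i j, c i j = c j i) ∧ ∀ i j, c i j ≤ 2

/-- number of pairs of colour `t` among the first `K` vertices -/
def cnt (t : ℕ) (c : ℕ → ℕ → ℕ) (K : ℕ) : ℕ :=
  ∑ j ∈ Finset.range K, ∑ i ∈ Finset.range j, if c i j = t then 1 else 0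

/-- number of coloured pairs at the vertex `v` -/
def deg (c : ℕ → ℕ → ℕ) (K v : ℕ) : ℕ :=
  ∑ i ∈ Finset.range K, if i ≠ v ∧ c i v ≠ 0 then 1 else 0

/-- the stored numbers of an entry are correct -/
def MetaW (K w : ℕ) : Prop :=
  (∀ i j, i < j → j < K → ¬ (bt (wa w) (px i j) = 1 ∧ bt (wb w) (px i j) = 1)) ∧
  wa w < 2 ^ tri K ∧ wb w < 2 ^ tri K ∧
  wna w = cnt 1 (col (wa w) (wb w)) K ∧ wnb w = cnt 2 (col (wa w) (wb w)) K ∧
  wdg w = ∑ v ∈ Finset.range K, deg (col (wa w) (wb w)) K v * 16 ^ v

/-- number of the pairs `{i, j}`, `i < n`, in the mask -/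
noncomputable def popRow (a j : ℕ) (n : ℕ) : ℕ :=
  Nat.rec 0 (fun i ih => Nat.add ih (bt a (Nat.add (tri j) i))) n

/-- number of the pairs `{i, j}`, `i < j < n`, in the mask -/
noncomputable def popAll (a : ℕ) (n : ℕ) : ℕ :=
  Nat.rec 0 (fun j ih => Nat.add ih (popRow a j j)) n

/-- degrees: contributions of the pairs `{i, j}`, `i < n` -/
noncomputable def dgRow (a b j : ℕ) (n : ℕ) : ℕ :=
  Nat.rec 0 (fun i ih => Nat.add ih (Nat.mul (Nat.add (bt a (Nat.add (tri j) i))
    (bt b (Nat.add (tri j) i))) (Nat.add (Nat.shiftLeft 1 (Nat.mul 4 i))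
      (Nat.shiftLeft 1 (Nat.mul 4 j))))) n

/-- degrees: contributions of the pairs `{i, j}`, `i < j < n` -/
noncomputable def dgAll (a b : ℕ) (n : ℕ) : ℕ :=
  Nat.rec 0 (fun j ih => Nat.add ih (dgRow a b j j)) n

/-- check of the stored numbers of an entry; the exact number `(bn, bn)` of pairs is excluded -/
noncomputable def metaOK (K bn w : ℕ) : Bool :=
  force (wa w) fun a => force (wb w) fun b =>
  and (and (Nat.beq (Nat.shiftRight a (tri K)) 0) (Nat.beq (Nat.shiftRight b (tri K)) 0))
  (and (Nat.beq (Nat.land a b) 0)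
  (and (Nat.beq (wna w) (popAll a K))
  (and (Nat.beq (wnb w) (popAll b K))
  (and (Nat.beq (wdg w) (dgAll a b K))
    (or (not (Nat.beq (wna w) bn)) (not (Nat.beq (wnb w) bn)))))))

/-- rotation by `s` of the vertices `0, ..., K - 1` -/
def rot (K s i : ℕ) : ℕ := cond (Nat.blt (Nat.add i s) K) (Nat.add i s) (Nat.sub (Nat.add i s) K)
/-- reflection -/
def rfx (K s i : ℕ) : ℕ := cond (Nat.ble i s) (Nat.sub s i) (Nat.sub (Nat.add K s) i)

/-- the symmetries of the polygon with `K` vertices -/
def IsDih (K : ℕ) (σ : ℕ → ℕ) : Prop :=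
  ∃ s < K, (∀ i < K, σ i = rot K s i) ∨ (∀ i < K, σ i = rfx K s i)

/-- the colouring is, up to a symmetry, in the list -/
def Good (K : ℕ) (L : T ℕ) (c : ℕ → ℕ → ℕ) : Prop :=
  ∃ n σ, IsDih K σ ∧
    ∀ i j, i < K → j < K → i ≠ j → c i j = col (wa (L.get n)) (wb (L.get n)) (σ i) (σ j)

/-! ### the search over the colours of the pairs at the new vertex -/

/-- symmetry number `(f, d)` -/
def dih (K f d i : ℕ) : ℕ := cond (Nat.beq f 0) (rot K d i) (rfx K d i)

/-- the symmetry composed with the positions of the labels `< n`, in base 16 -/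
noncomputable def psi (K r f d : ℕ) (n : ℕ) : ℕ :=
  Nat.rec 0 (fun l ih =>
    Nat.add ih (Nat.shiftLeft (dih (Nat.succ K) f d (posL K r l)) (Nat.mul 4 l))) n

/-- the vertices without `v` -/
def sk (v i : ℕ) : ℕ := if i < v then i else i + 1

/-- the colouring without the vertex `v` -/
def del (v : ℕ) (c : ℕ → ℕ → ℕ) : ℕ → ℕ → ℕ := fun i j => c (sk v i) (sk v j)

/-- Every extension of the pattern `w` by a vertex of minimal degree at position `r` which is
realisable is in the list `L`. -/
def RunC (K r thr : ℕ) (L : T ℕ) (w : ℕ) : Prop :=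
  ∀ c : ℕ → ℕ → ℕ, Sym c → (∀ i j, i < j → j < K → c i j = col (wa w) (wb w) i j) →
    Fits (K + 1) (fun i j => c (lam K r i) (lam K r j)) →
    cnt 1 c (K + 1) ≤ 11 → cnt 2 c (K + 1) ≤ 11 →
    thr ≤ cnt 1 c (K + 1) + cnt 2 c (K + 1) →
    (∀ u < K, deg c (K + 1) K ≤ deg c (K + 1) u) →
    Good (K + 1) L (fun i j => c (lam K r i) (lam K r j))

/-- comparison of the pairs `{i, j}`, `i < n` -/
noncomputable def cmpRow (a b ya yb ps j : ℕ) (n : ℕ) : Bool :=
  Nat.rec true (fun i ih =>
    and (force (Nat.add (tri j) i) fun e => force (px (dg ps i) (dg ps j)) fun f =>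
      and (Nat.beq (bt a e) (bt ya f)) (Nat.beq (bt b e) (bt yb f))) ih) n

/-- comparison of the pairs `{i, j}`, `i < j < n` -/
noncomputable def cmpAll (a b ya yb ps : ℕ) (n : ℕ) : Bool :=
  Nat.rec true (fun j ih => and (cmpRow a b ya yb ps j j) ih) n

/-- the completed pattern is in the list: hint `s = index + 2^14 (f + 2 (d + 16 s'))` -/
noncomputable def leafOK (K r : ℕ) (L : T ℕ) (a b s : ℕ) : Bool :=
  force (Nat.mod (Nat.shiftRight s 14) 2) fun f =>
  force (Nat.mod (Nat.shiftRight s 15) 16) fun d =>
  force (L.get (Nat.mod s 16384)) fun y =>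
  force (wa y) fun ya => force (wb y) fun yb =>
  force (psi K r f d (Nat.succ K)) fun ps =>
  and (Nat.ble d K) (cmpAll a b ya yb ps (Nat.succ K))

/-- The search: `a`, `b` masks, `na`, `nb` numbers of pairs, `dec` mask of the decided vertices,
`rem` number of the undecided ones, `dv` degrees (base 16), `s` the remaining certificate.
Operations: 0: branch on vertex `v` (4 bits); 1: kill by the image with the given index (14 bits);
2: the degree of the vertex `v` (4 bits) is too small; 3: counting, or the end of the branch. -/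
noncomputable def run (K r thr e0 base : ℕ) (tab : T ℕ) (L : T ℕ) (fuel : ℕ) :
    ℕ → ℕ → ℕ → ℕ → ℕ → ℕ → ℕ → ℕ → Option ℕ :=
  Nat.rec (motive := fun _ => ℕ → ℕ → ℕ → ℕ → ℕ → ℕ → ℕ → ℕ → Option ℕ)
    (fun _ _ _ _ _ _ _ _ => none)
    (fun _ ih a b na nb dec rem dv s =>
      force (Nat.mod s 4) fun op => force (Nat.shiftRight s 2) fun s1 =>
      cond (Nat.beq op 1)
        (force (tab.get (Nat.mod s1 16384)) fun w =>
          force (Nat.shiftRight w 45) fun ia => force (Nat.mod w 35184372088832) fun ib =>
          cond (and (Nat.beq (Nat.land ia a) ia) (Nat.beq (Nat.land ib b) ib))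
            (some (Nat.shiftRight s1 14)) none)
        (cond (Nat.beq op 0)
          (force (Nat.mod s1 16) fun v => force (Nat.shiftRight s1 4) fun s2 =>
            force (Nat.shiftLeft 1 (Nat.add base v)) fun bit =>
            force (Nat.add dec (Nat.shiftLeft 1 v)) fun dec' =>
            force (Nat.add dv (Nat.shiftLeft 1 (Nat.mul 4 v))) fun dv' =>
            cond (and (Nat.beq (bt dec v) 0) (Nat.blt v K))
              (Option.rec none (fun s3 =>
                Option.rec none (fun s4 =>
                  ih a (Nat.add b bit) na (Nat.succ nb) dec' (Nat.pred rem) dv' s4)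
                  (ih (Nat.add a bit) b (Nat.succ na) nb dec' (Nat.pred rem) dv' s3))
                (ih a b na nb dec' (Nat.pred rem) dv s2)) none)
          (cond (Nat.beq op 2)
            (force (Nat.mod s1 16) fun v =>
              force (Nat.add e0 (Nat.add (dg dv v) (cond (Nat.beq (bt dec v) 0) 1 0))) fun up =>
              cond (and (or (Nat.blt up (Nat.add na nb)) (Nat.blt up thr)) (Nat.blt v K))
                (some (Nat.shiftRight s1 4)) none)
            (cond (or (Nat.blt 11 na) (or (Nat.blt 11 nb)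
                (Nat.blt (Nat.add (Nat.add na nb) rem) thr)))
              (some s1)
              (cond (and (Nat.beq rem 0) (leafOK K r L a b s1)) (some (Nat.shiftRight s1 19))
                none)))))
    fuel

/-- check of a pattern of the list -/
noncomputable def runOK (K r thr base : ℕ) (tab : T ℕ) (L : T ℕ) (w s : ℕ) : Bool :=
  force (wna w) fun na => force (wnb w) fun nb =>
  Option.rec false (fun _ => true)
    (run K r thr (Nat.add na nb) base tab L (Nat.succ K) (wa w) (wb w) na nb 0 K (wdg w) s)

end Pool.Agent.Helper14.CPX
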