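import Pool.Agent.Helper14.CPX.Stmts
import Pool.Agent.Helper14.CPX.Dig

/-!
Row RUN: soundness of the search.
-/

set_option autoImplicit false

namespace Pool.Agent.Helper14.CPX

theorem run_succ (K r thr e0 base : ℕ) (tab L : T ℕ) (n a b na nb dec rem dv s : ℕ) :
    run K r thr e0 base tab L (n + 1) a b na nb dec rem dv s =
      (force (Nat.mod s 4) fun op => force (Nat.shiftRight s 2) fun s1 =>
      cond (Nat.beq op 1)
        (force (tab.get (Nat.mod s1 16384)) fun w =>
          force (Nat.shiftRight w 45) fun ia => force (Nat.mod w 35184372088832) fun ib =>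
          cond (and (Nat.beq (Nat.land ia a) ia) (Nat.beq (Nat.land ib b) ib))
            (some (Nat.shiftRight s1 14)) none)
        (cond (Nat.beq op 0)
          (force (Nat.mod s1 16) fun v => force (Nat.shiftRight s1 4) fun s2 =>
            force (Nat.shiftLeft 1 (Nat.add base v)) fun bit =>
            force (Nat.add dec (Nat.shiftLeft 1 v)) fun dec' =>
            force (Nat.add dv (Nat.shiftLeft 1 (Nat.mul 4 v))) fun dv' =>
            cond (and (Nat.beq (bt dec v) 0) (Nat.blt v K))
              (Option.rec none (fun s3 =>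
                Option.rec none (fun s4 =>
                  run K r thr e0 base tab L n a (Nat.add b bit) na (Nat.succ nb) dec'
                    (Nat.pred rem) dv' s4)
                  (run K r thr e0 base tab L n (Nat.add a bit) b (Nat.succ na) nb dec'
                    (Nat.pred rem) dv' s3))
                (run K r thr e0 base tab L n a b na nb dec' (Nat.pred rem) dv s2)) none)
          (cond (Nat.beq op 2)
            (force (Nat.mod s1 16) fun v =>
              force (Nat.add e0 (Nat.add (dg dv v) (cond (Nat.beq (bt dec v) 0) 1 0))) fun up =>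
              cond (and (or (Nat.blt up (Nat.add na nb)) (Nat.blt up thr)) (Nat.blt v K))
                (some (Nat.shiftRight s1 4)) none)
            (cond (or (Nat.blt 11 na) (or (Nat.blt 11 nb)
                (Nat.blt (Nat.add (Nat.add na nb) rem) thr)))
              (some s1)
              (cond (and (Nat.beq rem 0) (leafOK K r L a b s1)) (some (Nat.shiftRight s1 19))
                none))))) := rfl

/-- the colouring agrees with the state of the search -/
structure Inv (K w : ℕ) (c : ℕ → ℕ → ℕ) (S : Finset ℕ) (a b na nb dec rem dv : ℕ) : Prop where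
  sub : S ⊆ Finset.range K
  hdec : ∀ v, v < K → (bt dec v = 1 ↔ v ∈ S)
  hrem : rem + S.card = K
  a0 : ∀ i j, i < j → j < K → bt a (tri j + i) = bt (wa w) (tri j + i)
  b0 : ∀ i j, i < j → j < K → bt b (tri j + i) = bt (wb w) (tri j + i)
  a1 : ∀ v, v < K → bt a (tri K + v) = if v ∈ S ∧ c v K = 1 then 1 else 0
  b1 : ∀ v, v < K → bt b (tri K + v) = if v ∈ S ∧ c v K = 2 then 1 else 0
  hna : na = wna w + ∑ v ∈ S, (if c v K = 1 then 1 else 0)
  hnb : nb = wnb w + ∑ v ∈ S, (if c v K = 2 then 1 else 0)
  hdv : ∀ v, v < K → dg dv v = deg c K v + (if v ∈ S ∧ c v K ≠ 0 then 1 else 0)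

theorem deg_lt (c : ℕ → ℕ → ℕ) {K v : ℕ} (hv : v < K) : deg c K v < K := by
  unfold deg
  have h1 : ∑ i ∈ Finset.range K, (if i ≠ v ∧ c i v ≠ 0 then 1 else 0) ≤
      ∑ i ∈ Finset.range K, (if i ≠ v then 1 else 0) := by
    refine Finset.sum_le_sum fun i _ => ?_
    split_ifs with h1 h2 <;> first | omega | (exfalso; exact h2 h1.1)
  have h2 : ∑ i ∈ Finset.range K, (if i ≠ v then 1 else 0) = K - 1 := by
    rw [← Finset.card_filter, Finset.filter_ne', Finset.card_erase_of_mem (Finset.mem_range.2 hv),
      Finset.card_range]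
  omega

/-- decided vertex `v` of colour 0 -/
theorem Inv.step0 {K w : ℕ} {c : ℕ → ℕ → ℕ} {S : Finset ℕ} {a b na nb dec rem dv v : ℕ}
    (h : Inv K w c S a b na nb dec rem dv) (hv : v < K) (hd : bt dec v = 0) (hc : c v K = 0) :
    Inv K w c (insert v S) a b na nb (Nat.add dec (Nat.shiftLeft 1 v)) (Nat.pred rem) dv := by
  have hvS : v ∉ S := fun hm => by
    have := (h.hdec v hv).2 hm
    omega
  obtain ⟨hb1, hb2⟩ := bt_add hd
  refine ⟨?_, ?_, ?_, h.a0, h.b0, ?_, ?_, ?_, ?_, ?_⟩
  · exact Finset.insert_subset (Finset.mem_range.2 hv) h.sub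
  · intro u hu
    by_cases huv : u = v
    · subst huv
      exact iff_of_true hb1 (Finset.mem_insert_self _ _)
    · rw [hb2 u huv, h.hdec u hu, Finset.mem_insert]
      simp [huv]
  · rw [Finset.card_insert_of_notMem hvS]
    have h1 := h.hrem
    have h2 : S.card < K := by
      have h3 : S ⊂ Finset.range K := ⟨h.sub, fun hh => hvS (hh (Finset.mem_range.2 hv))⟩
      have := Finset.card_lt_card h3
      rwa [Finset.card_range] at this
    have h4 : Nat.pred rem = rem - 1 := rfl
    omega
  · intro u hu
    rw [h.a1 u hu]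
    by_cases huv : u = v
    · subst huv
      simp [hvS, hc]
    · simp [huv]
  · intro u hu
    rw [h.b1 u hu]
    by_cases huv : u = v
    · subst huv
      simp [hvS, hc]
    · simp [huv]
  · rw [Finset.sum_insert hvS, h.hna, hc]
    simp
  · rw [Finset.sum_insert hvS, h.hnb, hc]
    simp
  · intro u hu
    rw [h.hdv u hu]
    by_cases huv : u = v
    · subst huv
      simp [hvS, hc]
    · simp [huv]

/-- decided vertex `v` of colour 1 -/
theorem Inv.step1 {K w : ℕ} {c : ℕ → ℕ → ℕ} {S : Finset ℕ} {a b na nb dec rem dv v : ℕ}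
    (hK : K ≤ 9) (h : Inv K w c S a b na nb dec rem dv) (hv : v < K) (hd : bt dec v = 0)
    (hc : c v K = 1) :
    Inv K w c (insert v S) (Nat.add a (Nat.shiftLeft 1 (Nat.add (tri K) v))) b (Nat.succ na) nb
      (Nat.add dec (Nat.shiftLeft 1 v)) (Nat.pred rem)
      (Nat.add dv (Nat.shiftLeft 1 (Nat.mul 4 v))) := by
  have hvS : v ∉ S := fun hm => by
    have := (h.hdec v hv).2 hm
    omega
  obtain ⟨hb1, hb2⟩ := bt_add hd
  have ha0 : bt a (Nat.add (tri K) v) = 0 := by
    show bt a (tri K + v) = 0
    rw [h.a1 v hv]
    simp [hvS]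
  obtain ⟨ha1, ha2⟩ := bt_add ha0
  have hdg : dg dv v < 15 := by
    rw [h.hdv v hv]
    have := deg_lt c hv
    simp only [hvS, false_and, if_false]
    omega
  obtain ⟨hg1, hg2⟩ := dg_add hdg
  refine ⟨?_, ?_, ?_, ?_, h.b0, ?_, ?_, ?_, ?_, ?_⟩
  · exact Finset.insert_subset (Finset.mem_range.2 hv) h.sub
  · intro u hu
    by_cases huv : u = v
    · subst huv
      exact iff_of_true hb1 (Finset.mem_insert_self _ _)
    · rw [hb2 u huv, h.hdec u hu, Finset.mem_insert]
      simp [huv]
  · rw [Finset.card_insert_of_notMem hvS]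
    have h1 := h.hrem
    have h2 : S.card < K := by
      have h3 : S ⊂ Finset.range K := ⟨h.sub, fun hh => hvS (hh (Finset.mem_range.2 hv))⟩
      have := Finset.card_lt_card h3
      rwa [Finset.card_range] at this
    have h4 : Nat.pred rem = rem - 1 := rfl
    omega
  · intro i j hij hj
    rw [ha2 (tri j + i) (by
      have := tri_lt hij hj
      show tri j + i ≠ tri K + v
      omega), h.a0 i j hij hj]
  · intro u hu
    by_cases huv : u = v
    · subst huv
      rw [if_pos ⟨Finset.mem_insert_self _ _, hc⟩]
      exact ha1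
    · rw [ha2 (tri K + u) (by
        show tri K + u ≠ tri K + v
        omega), h.a1 u hu]
      simp [huv]
  · intro u hu
    rw [h.b1 u hu]
    by_cases huv : u = v
    · subst huv
      simp [hvS, hc]
    · simp [huv]
  · rw [Finset.sum_insert hvS, h.hna, hc]
    simp
    omega
  · rw [Finset.sum_insert hvS, h.hnb, hc]
    simp
  · intro u hu
    by_cases huv : u = v
    · subst huv
      rw [hg1, h.hdv u hu]
      simp [hvS, hc]
    · rw [hg2 u huv, h.hdv u hu]
      simp [huv]

/-- decided vertex `v` of colour 2 -/
theorem Inv.step2 {K w : ℕ} {c : ℕ → ℕ → ℕ} {S : Finset ℕ} {a b na nb dec rem dv v : ℕ}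
    (hK : K ≤ 9) (h : Inv K w c S a b na nb dec rem dv) (hv : v < K) (hd : bt dec v = 0)
    (hc : c v K = 2) :
    Inv K w c (insert v S) a (Nat.add b (Nat.shiftLeft 1 (Nat.add (tri K) v))) na (Nat.succ nb)
      (Nat.add dec (Nat.shiftLeft 1 v)) (Nat.pred rem)
      (Nat.add dv (Nat.shiftLeft 1 (Nat.mul 4 v))) := by
  have hvS : v ∉ S := fun hm => by
    have := (h.hdec v hv).2 hm
    omega
  obtain ⟨hb1, hb2⟩ := bt_add hd
  have ha0 : bt b (Nat.add (tri K) v) = 0 := by
    show bt b (tri K + v) = 0
    rw [h.b1 v hv]
    simp [hvS]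
  obtain ⟨ha1, ha2⟩ := bt_add ha0
  have hdg : dg dv v < 15 := by
    rw [h.hdv v hv]
    have := deg_lt c hv
    simp only [hvS, false_and, if_false]
    omega
  obtain ⟨hg1, hg2⟩ := dg_add hdg
  refine ⟨?_, ?_, ?_, h.a0, ?_, ?_, ?_, ?_, ?_, ?_⟩
  · exact Finset.insert_subset (Finset.mem_range.2 hv) h.sub
  · intro u hu
    by_cases huv : u = v
    · subst huv
      exact iff_of_true hb1 (Finset.mem_insert_self _ _)
    · rw [hb2 u huv, h.hdec u hu, Finset.mem_insert]
      simp [huv]
  · rw [Finset.card_insert_of_notMem hvS]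
    have h1 := h.hrem
    have h2 : S.card < K := by
      have h3 : S ⊂ Finset.range K := ⟨h.sub, fun hh => hvS (hh (Finset.mem_range.2 hv))⟩
      have := Finset.card_lt_card h3
      rwa [Finset.card_range] at this
    have h4 : Nat.pred rem = rem - 1 := rfl
    omega
  · intro i j hij hj
    rw [ha2 (tri j + i) (by
      have := tri_lt hij hj
      show tri j + i ≠ tri K + v
      omega), h.b0 i j hij hj]
  · intro u hu
    rw [h.a1 u hu]
    by_cases huv : u = v
    · subst huv
      simp [hvS, hc]
    · simp [huv]
  · intro u hu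
    by_cases huv : u = v
    · subst huv
      rw [if_pos ⟨Finset.mem_insert_self _ _, hc⟩]
      exact ha1
    · rw [ha2 (tri K + u) (by
        show tri K + u ≠ tri K + v
        omega), h.b1 u hu]
      simp [huv]
  · rw [Finset.sum_insert hvS, h.hna, hc]
    simp
  · rw [Finset.sum_insert hvS, h.hnb, hc]
    simp
    omega
  · intro u hu
    by_cases huv : u = v
    · subst huv
      rw [hg1, h.hdv u hu]
      simp [hvS, hc]
    · rw [hg2 u huv, h.hdv u hu]
      simp [huv]

theorem cnt_succ (t : ℕ) (c : ℕ → ℕ → ℕ) (K : ℕ) :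
    cnt t c (K + 1) = cnt t c K + ∑ v ∈ Finset.range K, (if c v K = t then 1 else 0) := by
  unfold cnt
  rw [Finset.sum_range_succ]

theorem deg_last (c : ℕ → ℕ → ℕ) (K : ℕ) :
    deg c (K + 1) K = ∑ v ∈ Finset.range K, (if c v K ≠ 0 then 1 else 0) := by
  unfold deg
  rw [Finset.sum_range_succ]
  simp only [ne_eq, not_true_eq_false, false_and, if_false, add_zero]
  refine Finset.sum_congr rfl fun i hi => ?_
  have : i ≠ K := by
    have := Finset.mem_range.1 hi
    omega
  simp [this]

theorem deg_old (c : ℕ → ℕ → ℕ) (hc : Sym c) {K u : ℕ} (hu : u < K) :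
    deg c (K + 1) u = deg c K u + (if c u K ≠ 0 then 1 else 0) := by
  unfold deg
  rw [Finset.sum_range_succ, hc.1 K u]
  have : K ≠ u := by omega
  simp [this]

theorem row_sum (c : ℕ → ℕ → ℕ) (hc : Sym c) (K : ℕ) (S : Finset ℕ) :
    ∑ v ∈ S, (if c v K ≠ 0 then 1 else 0) =
      ∑ v ∈ S, (if c v K = 1 then 1 else 0) + ∑ v ∈ S, (if c v K = 2 then 1 else 0) := by
  rw [← Finset.sum_add_distrib]
  refine Finset.sum_congr rfl fun v _ => ?_
  have := hc.2 v K
  interval_cases h : c v K <;> simp

theorem run_sound (hleaf : ST_LEAF) {K r thr : ℕ} {tab L : T ℕ} {w : ℕ} (hK : K ≤ 9)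
    (hr : r ≤ K) (htab : ∀ n, DeadImg K r (tab.get n)) (c : ℕ → ℕ → ℕ) (hc : Sym c)
    (hm1 : wna w = cnt 1 c K) (hm2 : wnb w = cnt 2 c K)
    (hag : ∀ i j, i < j → j < K → c i j = col (wa w) (wb w) i j)
    (hdisj : ∀ i j, i < j → j < K → ¬ (bt (wa w) (px i j) = 1 ∧ bt (wb w) (px i j) = 1))
    (hfit : Fits (K + 1) (fun i j => c (lam K r i) (lam K r j)))
    (h1 : cnt 1 c (K + 1) ≤ 11) (h2 : cnt 2 c (K + 1) ≤ 11)
    (hthr : thr ≤ cnt 1 c (K + 1) + cnt 2 c (K + 1))
    (hmin : ∀ u < K, deg c (K + 1) K ≤ deg c (K + 1) u) (n : ℕ) :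
    ∀ (S : Finset ℕ) (a b na nb dec rem dv s s' : ℕ), Inv K w c S a b na nb dec rem dv →
      run K r thr (wna w + wnb w) (tri K) tab L n a b na nb dec rem dv s = some s' →
      Good (K + 1) L (fun i j => c (lam K r i) (lam K r j)) := by
  induction n with
  | zero =>
    intro S a b na nb dec rem dv s s' _ hrun
    have h0 : (none : Option ℕ) = some s' := hrun
    exact absurd h0 (by simp)
  | succ n ih =>
    intro S a b na nb dec rem dv s s' h hrun
    rw [run_succ] at hrun
    simp only [force_eq] at hrun
    -- colours of the masks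
    have hA : ∀ i j, i < j → j ≤ K → bt a (px i j) = 1 → c i j = 1 := by
      intro i j hij hj hbt
      rw [px_of_lt hij] at hbt
      rcases Nat.lt_or_eq_of_le hj with hj | rfl
      · rw [h.a0 i j hij hj] at hbt
        rw [hag i j hij hj, col_eq, px_of_lt hij, if_pos hbt]
      · rw [h.a1 i hij] at hbt
        by_contra hne
        rw [if_neg (fun hh => hne hh.2)] at hbt
        exact absurd hbt (by norm_num)
    have hB : ∀ i j, i < j → j ≤ K → bt b (px i j) = 1 → c i j = 2 := by
      intro i j hij hj hbt
      rw [px_of_lt hij] at hbt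
      rcases Nat.lt_or_eq_of_le hj with hj | rfl
      · rw [h.b0 i j hij hj] at hbt
        have hd := hdisj i j hij hj
        rw [px_of_lt hij] at hd
        rw [hag i j hij hj, col_eq, px_of_lt hij, if_neg (fun h3 => hd ⟨h3, hbt⟩), if_pos hbt]
      · rw [h.b1 i hij] at hbt
        by_contra hne
        rw [if_neg (fun hh => hne hh.2)] at hbt
        exact absurd hbt (by norm_num)
    -- bounds
    have hsuble : ∀ t, ∑ v ∈ S, (if c v K = t then 1 else 0) ≤
        ∑ v ∈ Finset.range K, (if c v K = t then 1 else 0) := fun t =>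
      Finset.sum_le_sum_of_subset h.sub
    have hna_le : na ≤ cnt 1 c (K + 1) := by
      rw [h.hna, cnt_succ, hm1]
      exact Nat.add_le_add_left (hsuble 1) _
    have hnb_le : nb ≤ cnt 2 c (K + 1) := by
      rw [h.hnb, cnt_succ, hm2]
      exact Nat.add_le_add_left (hsuble 2) _
    have htot : cnt 1 c (K + 1) + cnt 2 c (K + 1) ≤ na + nb + rem := by
      rw [cnt_succ, cnt_succ, h.hna, h.hnb, hm1, hm2]
      have e1 : ∑ v ∈ Finset.range K, (if c v K ≠ 0 then 1 else 0) ≤
          ∑ v ∈ S, (if c v K ≠ 0 then 1 else 0) + rem := by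
        have e2 := Finset.sum_sdiff (f := fun v => if c v K ≠ 0 then 1 else 0) h.sub
        have e3 : ∑ v ∈ Finset.range K \ S, (if c v K ≠ 0 then 1 else 0) ≤
            (Finset.range K \ S).card := by
          rw [Finset.card_eq_sum_ones]
          refine Finset.sum_le_sum fun i _ => ?_
          split_ifs <;> omega
        have e4 : (Finset.range K \ S).card = rem := by
          rw [Finset.card_sdiff_of_subset h.sub, Finset.card_range]
          have := h.hrem
          omega
        rw [e4] at e3
        omega
      rw [row_sum c hc K (Finset.range K), row_sum c hc K S] at e1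
      omega
    have hdegK : wna w + wnb w + deg c (K + 1) K = cnt 1 c (K + 1) + cnt 2 c (K + 1) := by
      rw [deg_last, row_sum c hc K (Finset.range K), cnt_succ, cnt_succ, hm1, hm2]
      omega
    by_cases hop1 : Nat.mod s 4 = 1
    · -- kill
      exfalso
      rw [beq_iff.2 hop1] at hrun
      simp only [cond_true] at hrun
      by_cases hcnd : and (Nat.beq (Nat.land (Nat.shiftRight (tab.get (Nat.mod (Nat.shiftRight s 2)
          16384)) 45) a) (Nat.shiftRight (tab.get (Nat.mod (Nat.shiftRight s 2) 16384)) 45))
          (Nat.beq (Nat.land (Nat.mod (tab.get (Nat.mod (Nat.shiftRight s 2) 16384))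
            35184372088832) b) (Nat.mod (tab.get (Nat.mod (Nat.shiftRight s 2) 16384))
            35184372088832)) = true
      · rw [Bool.and_eq_true, beq_iff, beq_iff] at hcnd
        have hsub : ∀ x y e : ℕ, Nat.land x y = x → bt x e = 1 → bt y e = 1 := by
          intro x y e hxy hx
          have hxy' : x &&& y = x := hxy
          rw [bt_one_iff] at hx ⊢
          rw [← hxy', Nat.testBit_and, Bool.and_eq_true] at hx
          exact hx.2
        refine htab (Nat.mod (Nat.shiftRight s 2) 16384) c hc.1 ?_ ?_ hfit
        · intro i j hij hj hb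
          exact hA i j hij hj (hsub _ _ _ hcnd.1 hb)
        · intro i j hij hj hb
          exact hB i j hij hj (hsub _ _ _ hcnd.2 hb)
      · rw [Bool.not_eq_true] at hcnd
        rw [hcnd] at hrun
        exact absurd hrun (by simp)
    · rw [beq_false_iff.2 hop1] at hrun
      simp only [cond_false] at hrun
      by_cases hop0 : Nat.mod s 4 = 0
      · -- branch
        rw [beq_iff.2 hop0] at hrun
        simp only [cond_true] at hrun
        generalize hv : Nat.mod (Nat.shiftRight s 2) 16 = v at hrun
        generalize hs2 : Nat.shiftRight (Nat.shiftRight s 2) 4 = s2 at hrun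
        by_cases hcnd : and (Nat.beq (bt dec v) 0) (Nat.blt v K) = true
        · rw [hcnd] at hrun
          simp only [cond_true] at hrun
          rw [Bool.and_eq_true, beq_iff, blt_iff] at hcnd
          obtain ⟨hd, hvK⟩ := hcnd
          generalize hr2 : run K r thr (wna w + wnb w) (tri K) tab L n a b na nb
            (Nat.add dec (Nat.shiftLeft 1 v)) (Nat.pred rem) dv s2 = R2 at hrun
          cases R2 with
          | none => exact absurd hrun (by simp)
          | some s3 =>
            simp only at hrun
            generalize hr3 : run K r thr (wna w + wnb w) (tri K) tab L n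
              (Nat.add a (Nat.shiftLeft 1 (Nat.add (tri K) v))) b (Nat.succ na) nb
              (Nat.add dec (Nat.shiftLeft 1 v)) (Nat.pred rem)
              (Nat.add dv (Nat.shiftLeft 1 (Nat.mul 4 v))) s3 = R3 at hrun
            cases R3 with
            | none => exact absurd hrun (by simp)
            | some s4 =>
              simp only at hrun
              have hcv := hc.2 v K
              rcases (show c v K = 0 ∨ c v K = 1 ∨ c v K = 2 by omega) with h0 | h0 | h0
              · exact ih _ _ _ _ _ _ _ _ _ _ (h.step0 hvK hd h0) hr2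
              · exact ih _ _ _ _ _ _ _ _ _ _ (h.step1 hK hvK hd h0) hr3
              · exact ih _ _ _ _ _ _ _ _ _ _ (h.step2 hK hvK hd h0) hrun
        · rw [Bool.not_eq_true] at hcnd
          rw [hcnd] at hrun
          exact absurd hrun (by simp)
      · rw [beq_false_iff.2 hop0] at hrun
        simp only [cond_false] at hrun
        by_cases hop2 : Nat.mod s 4 = 2
        · -- degree
          exfalso
          rw [beq_iff.2 hop2] at hrun
          simp only [cond_true] at hrun
          generalize hv : Nat.mod (Nat.shiftRight s 2) 16 = v at hrun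
          by_cases hcnd : and (or (Nat.blt (Nat.add (wna w + wnb w) (Nat.add (dg dv v)
              (cond (Nat.beq (bt dec v) 0) 1 0))) (Nat.add na nb))
              (Nat.blt (Nat.add (wna w + wnb w) (Nat.add (dg dv v)
              (cond (Nat.beq (bt dec v) 0) 1 0))) thr)) (Nat.blt v K) = true
          · rw [Bool.and_eq_true, Bool.or_eq_true, blt_iff, blt_iff, blt_iff] at hcnd
            obtain ⟨hlt, hvK⟩ := hcnd
            have hdv := h.hdv v hvK
            have hmv := hmin v hvK
            rw [deg_old c hc hvK] at hmv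
            have hup : deg c K v + (if c v K ≠ 0 then 1 else 0) ≤
                dg dv v + cond (Nat.beq (bt dec v) 0) 1 0 := by
              rw [hdv]
              by_cases hvS : v ∈ S
              · have := (h.hdec v hvK).2 hvS
                rw [beq_false_iff.2 (show bt dec v ≠ 0 by omega)]
                simp [hvS]
              · have h3 : bt dec v = 0 := by
                  have h4 := bt_le dec v
                  have h5 : bt dec v ≠ 1 := fun hh => hvS ((h.hdec v hvK).1 hh)
                  omega
                rw [beq_iff.2 h3]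
                simp only [hvS, false_and, if_false, cond_true, add_zero]
                split_ifs <;> omega
            have hlt' : wna w + wnb w + (dg dv v + cond (Nat.beq (bt dec v) 0) 1 0) < na + nb ∨
                wna w + wnb w + (dg dv v + cond (Nat.beq (bt dec v) 0) 1 0) < thr := hlt
            omega
          · rw [Bool.not_eq_true] at hcnd
            rw [hcnd] at hrun
            exact absurd hrun (by simp)
        · -- counting or end
          rw [beq_false_iff.2 hop2] at hrun
          simp only [cond_false] at hrun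
          by_cases hcnt : or (Nat.blt 11 na) (or (Nat.blt 11 nb)
                (Nat.blt (Nat.add (Nat.add na nb) rem) thr)) = true
          · exfalso
            rw [Bool.or_eq_true, Bool.or_eq_true, blt_iff, blt_iff, blt_iff] at hcnt
            have hcnt' : 11 < na ∨ 11 < nb ∨ na + nb + rem < thr := hcnt
            omega
          · rw [Bool.not_eq_true] at hcnt
            rw [hcnt] at hrun
            simp only [cond_false] at hrun
            by_cases hl : and (Nat.beq rem 0) (leafOK K r L a b (Nat.shiftRight s 2)) = true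
            · rw [Bool.and_eq_true, beq_iff] at hl
              obtain ⟨hrem, hl⟩ := hl
              have hS : S = Finset.range K := by
                refine Finset.eq_of_subset_of_card_le h.sub ?_
                rw [Finset.card_range]
                have := h.hrem
                omega
              refine hleaf K r L a b _ c (by omega) hr hc ?_ hl
              intro i j hij hj
              rw [col_eq, px_of_lt hij]
              rcases Nat.lt_or_eq_of_le hj with hj | rfl
              · rw [h.a0 i j hij hj, h.b0 i j hij hj, hag i j hij hj, col_eq, px_of_lt hij]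
              · rw [h.a1 i hij, h.b1 i hij, hS]
                have hcv := hc.2 i j
                have hmem : i ∈ Finset.range j := Finset.mem_range.2 hij
                rcases (show c i j = 0 ∨ c i j = 1 ∨ c i j = 2 by omega) with h0 | h0 | h0 <;>
                  simp [h0, hmem]
            · rw [Bool.not_eq_true] at hl
              rw [hl] at hrun
              exact absurd hrun (by simp)

theorem st_RUN (hleaf : ST_LEAF) : ST_RUN := by
  intro K r thr tab L w s _ hK hr htab hmeta hrun c hc hag hfit h1 h2 hthr hmin
  obtain ⟨hdisj, hla, hlb, hna, hnb, hdg⟩ := hmeta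
  have hcnt : ∀ t, cnt t (col (wa w) (wb w)) K = cnt t c K := by
    intro t
    unfold cnt
    refine Finset.sum_congr rfl fun j hj => Finset.sum_congr rfl fun i hi => ?_
    rw [hag i j (Finset.mem_range.1 hi) (Finset.mem_range.1 hj)]
  have hdeg : ∀ v, v < K → deg (col (wa w) (wb w)) K v = deg c K v := by
    intro v hv
    unfold deg
    refine Finset.sum_congr rfl fun i hi => ?_
    have hi' := Finset.mem_range.1 hi
    by_cases hiv : i = v
    · simp [hiv]
    · have e : c i v = col (wa w) (wb w) i v := by
        rcases lt_or_gt_of_ne hiv with h | h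
        · exact hag i v h hv
        · rw [hc.1 i v, hag v i h hi', col_comm (Ne.symm hiv)]
      rw [e]
  have hbt0 : ∀ (m v : ℕ), m < 2 ^ tri K → bt m (tri K + v) = 0 := by
    intro m v hm
    rw [bt_zero_iff]
    exact Nat.testBit_lt_two_pow (lt_of_lt_of_le hm (Nat.pow_le_pow_right (by norm_num)
      (Nat.le_add_right _ _)))
  unfold runOK at hrun
  simp only [force_eq] at hrun
  have hinv : Inv K w c ∅ (wa w) (wb w) (wna w) (wnb w) 0 K (wdg w) := by
    refine ⟨Finset.empty_subset _, ?_, by simp, fun _ _ _ _ => rfl, fun _ _ _ _ => rfl, ?_, ?_,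
      by simp, by simp, ?_⟩
    · intro v _
      have : bt 0 v = 0 := by rw [bt_eq]; simp
      simp [this]
    · intro v _
      rw [hbt0 _ _ hla]
      simp
    · intro v _
      rw [hbt0 _ _ hlb]
      simp
    · intro v hv
      have h3 := (dig_sum (B := 16) K (deg (col (wa w) (wb w)) K)
        (fun u hu => by
          have := deg_lt (col (wa w) (wb w)) hu
          omega)).2 v hv
      rw [dg_eq, hdg, h3, hdeg v hv]
      simp
  generalize hR : run K r thr (Nat.add (wna w) (wnb w)) (tri K) tab L (Nat.succ K) (wa w) (wb w)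
    (wna w) (wnb w) 0 K (wdg w) s = R at hrun
  cases R with
  | none => exact absurd hrun (by simp)
  | some s' =>
    exact run_sound hleaf hK hr htab c hc (by rw [hna, hcnt]) (by rw [hnb, hcnt]) hag hdisj hfit
      h1 h2 hthr hmin (K + 1) ∅ _ _ _ _ _ _ _ _ _ hinv hR

end Pool.Agent.Helper14.CPX
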