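import Pool.Agent.Helper14.CPX.Basic
import Pool.Agent.Helper14.Poly.Defs

/-!
Statements of the modules.
-/

set_option autoImplicit false

namespace Pool.Agent.Helper14.CPX

open Pool.Agent.Helper14.Poly

/-- the point of the plane as a complex number -/
noncomputable def toC (p : Plane) : ℂ := ⟨p 0, p 1⟩

/-- (MODEL) direction angles of the chords of a convex polygon -/
def ST_MODEL : Prop := ∀ (K : ℕ) (P : ℕ → ℂ), CCW K P →
  ∃ th len : ℕ → ℝ, Model K th len ∧ ∀ i j, i < j → j < K → len (tri j + i) = dist (P i) (P j)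

/-- (ORDER) the vertices of a convex polygon in counterclockwise order -/
def ST_ORDER : Prop := ∀ (n : ℕ) (C : Finset Plane), 3 ≤ n → IsConvexPolygon n C →
  ∃ P : ℕ → ℂ, CCW n P ∧ (∀ i < n, ∀ j < n, P i = P j → i = j) ∧
    ∀ p : Plane, p ∈ C ↔ ∃ i < n, toC p = P i

/-- (MULT) two frequent distances give a colouring with exactly `m` pairs of each colour -/
def ST_MULT : Prop := ∀ (n m : ℕ) (C : Finset Plane) (d₁ d₂ : ℝ), 3 ≤ n → 1 ≤ m →
  IsConvexPolygon n C → d₁ ≠ d₂ → m ≤ mult C d₁ → m ≤ mult C d₂ →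
  ∃ c : ℕ → ℕ → ℕ, Sym c ∧ Fits n c ∧ cnt 1 c n = m ∧ cnt 2 c n = m

/-- (SMALL) for at most five vertices there are not enough pairs -/
def ST_SMALL : Prop := ∀ (n : ℕ) (C : Finset Plane) (d₁ d₂ : ℝ), n ≤ 5 →
  IsConvexPolygon n C → d₁ ≠ d₂ → n + 1 ≤ mult C d₁ → n + 1 ≤ mult C d₂ → False

/-- (HINGE) two triangles with two pairs of equal sides -/
def ST_HINGE : Prop := ∀ (K : ℕ) (th len : ℕ → ℝ), Model K th len →
  ∀ i j l x i' j' l' x', i < j → j < l → l < K → i' < j' → j' < l' → l' < K →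
  ∀ ij il jl ij' il' jl' : ℕ, ij = tri j + i → il = tri l + i → jl = tri l + j →
    ij' = tri j' + i' → il' = tri l' + i' → jl' = tri l' + j' →
  ((len (ad1 x ij il jl) = len (ad1 x' ij' il' jl') ∧
      len (ad2 x ij il jl) = len (ad2 x' ij' il' jl')) ∨
    (len (ad1 x ij il jl) = len (ad2 x' ij' il' jl') ∧
      len (ad2 x ij il jl) = len (ad1 x' ij' il' jl'))) →
  (len (opp x' ij' il' jl') < len (opp x ij il jl) →
    ang th x' ij' il' jl' < ang th x ij il jl) ∧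
  (len (opp x' ij' il' jl') = len (opp x ij il jl) →
    ang th x' ij' il' jl' = ang th x ij il jl)

/-- (SIDE) in a triangle the larger side is opposite the larger angle -/
def ST_SIDE : Prop := ∀ (K : ℕ) (th len : ℕ → ℝ), Model K th len →
  ∀ i j l x x', i < j → j < l → l < K →
  ∀ ij il jl : ℕ, ij = tri j + i → il = tri l + i → jl = tri l + j →
  (len (opp x' ij il jl) < len (opp x ij il jl) → ang th x' ij il jl < ang th x ij il jl) ∧
  (len (opp x' ij il jl) = len (opp x ij il jl) → ang th x' ij il jl = ang th x ij il jl)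

/-- (ANGPOS) the angles are positive -/
def ST_ANGPOS : Prop := ∀ (K : ℕ) (th len : ℕ → ℝ), Model K th len →
  ∀ i j l x, i < j → j < l → l < K →
  ∀ ij il jl : ℕ, ij = tri j + i → il = tri l + i → jl = tri l + j → 0 < ang th x ij il jl

/-- (DIG) digits in base `B` are unique -/
def ST_DIG : Prop := ∀ (B n : ℕ) (f g : ℕ → ℕ), (∀ v < n, f v < B) → (∀ v < n, g v < B) →
  ∑ v ∈ Finset.range n, f v * B ^ v = ∑ v ∈ Finset.range n, g v * B ^ v → ∀ v < n, f v = g v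

/-- (DIGADD) adding at a digit 0 in base 8 -/
def ST_DIGADD : Prop := ∀ C e c : ℕ, c < 8 → cls C e = 0 →
  cls (C + Nat.shiftLeft c (3 * e)) e = c ∧ ∀ e', e' ≠ e → cls (C + Nat.shiftLeft c (3 * e)) e' = cls C e'

/-- (FARKAS) soundness of the Farkas sums -/
def ST_FARKAS : Prop := ∀ (K C : ℕ) (L : List ℕ), farkas K C L 0 0 0 0 0 0 = true →
  ∀ (th len : ℕ → ℝ) (α β : ℝ), Model K th len → 0 < α → α < β → SemC K C len α β → False

/-- (CERT) soundness of the certificate trees -/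
def ST_CERT : Prop := ∀ (K : ℕ) (t : Cert) (C : ℕ), certOK K t C = true →
  ∀ (th len : ℕ → ℝ) (α β : ℝ), Model K th len → 0 < α → α < β → SemC K C len α β → False

/-- (CORE) soundness of the check of a core -/
def ST_CORE : Prop := ∀ (c : Core) (t : Cert), coreOK c t = true → Refuted c

/-- the triple is positively oriented on the circle -/
def Orient (x y z : ℕ) : Prop := (x < y ∧ y < z) ∨ (y < z ∧ z < x) ∨ (z < x ∧ x < y)

/-- (CYC) a polygon read in cyclic order or a part of it -/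
def ST_CYC : Prop := ∀ (k K : ℕ) (c : ℕ → ℕ → ℕ) (g : ℕ → ℕ), (∀ i < k, g i < K) →
  (∀ i j l, i < j → j < l → l < k → Orient (g i) (g j) (g l)) →
  (∀ i j, i < k → j < k → i ≠ j → g i ≠ g j) →
  Fits K c → Fits k (fun i j => c (g i) (g j))

/-- (CONJ) the mirror image of a polygon -/
def ST_CONJ : Prop := ∀ (K : ℕ) (c : ℕ → ℕ → ℕ), Fits K c →
  Fits K (fun i j => c (K - 1 - i) (K - 1 - j))

/-- (DIH) symmetries -/
def ST_DIH : Prop := ∀ (K : ℕ) (c : ℕ → ℕ → ℕ) (σ : ℕ → ℕ), 1 ≤ K → IsDih K σ → Fits K c →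
  Fits K (fun i j => c (σ i) (σ j))

/-- (GRP) the symmetries form a group -/
def ST_GRP : Prop := ∀ (K : ℕ) (σ : ℕ → ℕ), 1 ≤ K → IsDih K σ →
  (∀ i < K, σ i < K) ∧ (∀ i < K, ∀ j < K, σ i = σ j → i = j) ∧
  (∃ τ : ℕ → ℕ, IsDih K τ ∧ ∀ i < K, τ i < K ∧ σ (τ i) = i ∧ τ (σ i) = i) ∧
  ∀ τ : ℕ → ℕ, IsDih K τ → IsDih K (fun i => σ (τ i))

/-- (IMG) soundness of the check of an image -/
def ST_IMG : Prop := ∀ (K r : ℕ) (CT : T Core) (w s : ℕ), K ≤ 15 → r ≤ K → (∀ n, Refuted (CT.get n)) →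
  imgOK K r CT w s = true → DeadImg K r w

/-- (META) soundness of the check of the stored numbers -/
def ST_META : Prop := ∀ K bn w : ℕ, K ≤ 12 → metaOK K bn w = true →
  MetaW K w ∧ ¬ (wna w = bn ∧ wnb w = bn)

/-- (LEAF) soundness of the comparison at the end of a branch: `a`, `b` describe the colouring -/
def ST_LEAF : Prop := ∀ (K r : ℕ) (L : T ℕ) (a b s : ℕ) (c : ℕ → ℕ → ℕ), K ≤ 14 → r ≤ K → Sym c →
  (∀ i j, i < j → j ≤ K → c i j = col a b i j) → leafOK K r L a b s = true →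
  Good (K + 1) L (fun i j => c (lam K r i) (lam K r j))

/-- (RUN) soundness of the search -/
def ST_RUN : Prop := ∀ (K r thr : ℕ) (tab L : T ℕ) (w s : ℕ), 3 ≤ K → K ≤ 9 → r ≤ K →
  (∀ n, DeadImg K r (tab.get n)) → MetaW K w → runOK K r thr (tri K) tab L w s = true →
  RunC K r thr L w

/-- (DEL) deleting a vertex -/
def ST_DEL : Prop := ∀ (K v : ℕ) (c : ℕ → ℕ → ℕ), v ≤ K → Sym c →
  Sym (del v c) ∧ (Fits (K + 1) c → Fits K (del v c)) ∧
  cnt 1 (del v c) K + cnt 2 (del v c) K + deg c (K + 1) v = cnt 1 c (K + 1) + cnt 2 c (K + 1) ∧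
  cnt 1 (del v c) K ≤ cnt 1 c (K + 1) ∧ cnt 2 (del v c) K ≤ cnt 2 c (K + 1) ∧
  ∀ u < K, deg (del v c) K u + (if c (sk v u) v ≠ 0 then 1 else 0) = deg c (K + 1) (sk v u)

/-- (HAND) the sum of the degrees -/
def ST_HAND : Prop := ∀ (K : ℕ) (c : ℕ → ℕ → ℕ), Sym c →
  ∑ v ∈ Finset.range K, deg c K v = 2 * (cnt 1 c K + cnt 2 c K)

/-- (PERM) the numbers are invariant under symmetries -/
def ST_PERM : Prop := ∀ (K : ℕ) (c : ℕ → ℕ → ℕ) (σ : ℕ → ℕ), 1 ≤ K → IsDih K σ → Sym c →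
  (∀ t, cnt t (fun i j => c (σ i) (σ j)) K = cnt t c K) ∧
  ∀ v < K, deg (fun i j => c (σ i) (σ j)) K v = deg c K (σ v)

/-- (STEP) from the list with `K` vertices to the list with `K + 1` vertices -/
def ST_STEP : Prop := ∀ (K thr : ℕ) (L0 L : T ℕ), 3 ≤ K →
  (∀ r < K, ∀ n, RunC K r thr L (L0.get n)) →
  ∀ c : ℕ → ℕ → ℕ, Sym c → Fits (K + 1) c → cnt 1 c (K + 1) ≤ 11 → cnt 2 c (K + 1) ≤ 11 →
  thr ≤ cnt 1 c (K + 1) + cnt 2 c (K + 1) →
  ∀ v ≤ K, (∀ u ≤ K, deg c (K + 1) v ≤ deg c (K + 1) u) → Good K L0 (del v c) →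
  Good (K + 1) L c

/-- everything with at least `thr` coloured pairs is in the list -/
def U (K thr : ℕ) (L : T ℕ) : Prop := ∀ c : ℕ → ℕ → ℕ, Sym c → Fits K c →
  cnt 1 c K ≤ 11 → cnt 2 c K ≤ 11 → thr ≤ cnt 1 c K + cnt 2 c K → Good K L c

/-- the same if there is a vertex of minimal degree with enough remaining pairs -/
def Uex (K thr t0 : ℕ) (L : T ℕ) : Prop := ∀ c : ℕ → ℕ → ℕ, Sym c → Fits K c →
  cnt 1 c K ≤ 11 → cnt 2 c K ≤ 11 → thr ≤ cnt 1 c K + cnt 2 c K →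
  (∃ v < K, (∀ u < K, deg c K v ≤ deg c K u) ∧ t0 + deg c K v ≤ cnt 1 c K + cnt 2 c K) →
  Good K L c

/-- (UEX) -/
def ST_UEX : Prop := ∀ (K thr t0 : ℕ) (L0 L : T ℕ), 3 ≤ K → U K t0 L0 →
  (∀ r < K, ∀ n, RunC K r thr L (L0.get n)) → Uex (K + 1) thr t0 L

/-- (UMIN) the vertex of minimal degree -/
def ST_UMIN : Prop := ∀ (K thr t0 : ℕ) (L : T ℕ), 1 ≤ K →
  (∀ d t : ℕ, K * d ≤ 2 * t → thr ≤ t → t0 + d ≤ t) → Uex K thr t0 L → U K thr L

/-- (GRAPH10) a graph with 10 vertices and 22 edges has a vertex `v` of minimal degree such that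
after its removal at least 18 edges remain, and then a vertex of minimal degree whose removal
leaves at least 15 edges -/
def ST_GRAPH10 : Prop := ∀ c : ℕ → ℕ → ℕ, Sym c → cnt 1 c 10 + cnt 2 c 10 = 22 →
  ∃ v < 10, (∀ u < 10, deg c 10 v ≤ deg c 10 u) ∧
    18 ≤ cnt 1 (del v c) 9 + cnt 2 (del v c) 9 ∧
    ∃ u < 9, (∀ x < 9, deg (del v c) 9 u ≤ deg (del v c) 9 x) ∧
      15 + deg (del v c) 9 u ≤ cnt 1 (del v c) 9 + cnt 2 (del v c) 9

/-- the exceptional pattern with ten vertices -/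
def starPat (i j : ℕ) : ℕ :=
  if (i, j) ∈ [(0, 2), (0, 7), (0, 8), (1, 3), (1, 9), (2, 4), (3, 5), (4, 6), (5, 7), (6, 8),
      (6, 9)] then 1
  else if (i, j) ∈ [(0, 3), (0, 4), (0, 5), (1, 5), (1, 6), (1, 7), (2, 5), (2, 9), (3, 6),
      (4, 7), (5, 9)] then 2
  else 0

/-- (STAR) the exceptional pattern is not realisable -/
def ST_STAR : Prop := ∀ c : ℕ → ℕ → ℕ,
  (∀ i j, i < j → j < 10 → starPat i j ≠ 0 → c i j = starPat i j) → ¬ Fits 10 c

/-- the patterns with three vertices and at least two coloured pairs -/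
def L3 : T ℕ :=
  (.node (.node (.node (.leaf 167649267760261909108488797159430) (.leaf 173056589851860450289985660125187)) (.node (.leaf 167686405961440470727842003419136) (.leaf 173093728053039011803785750118400))) (.node (.node (.leaf 167667836860851189953349772378114) (.leaf 173075158952449731064477891166209)) (.leaf 173038020751271169445124684906503)))

/-- (BASE) three vertices -/
def ST_BASE : Prop := U 3 2 L3

/-- (FIN) the end -/
def ST_FIN : Prop := (∀ n, 6 ≤ n → n ≤ 10 → ∀ c : ℕ → ℕ → ℕ, Sym c → Fits n c →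
  cnt 1 c n = n + 1 → cnt 2 c n = n + 1 → False) →
  IsLeast {n : ℕ | n < r₂ n} 11

end Pool.Agent.Helper14.CPX
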